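import Pool.Agent.W312.WT.Stm

/-!
# WT-SLin: hinge functions are linear between neighbours
-/

set_option autoImplicit false

namespace Pool.Agent.W571.WT

open Pool.Agent.W312.WT

theorem proof_SLin : Pool.Agent.W312.WT.SLin := by
  intro S dn up d t h hd
  obtain ⟨-, -, h1, h2, h3, h4⟩ := h t
  have hdd : d ≤ dn t ∨ up t ≤ d := by
    rcases le_total (d : ℝ) t with h5 | h5
    · exact Or.inl (h3 d hd h5)
    · exact Or.inr (h4 d hd h5)
  have hR : (d : ℝ) ≤ dn t ∨ (up t : ℝ) ≤ d := by
    rcases hdd with h5 | h5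
    · exact Or.inl (by exact_mod_cast h5)
    · exact Or.inr (by exact_mod_cast h5)
  unfold posi
  generalize (dn t : ℝ) = a at *
  generalize (up t : ℝ) = b at *
  generalize (d : ℝ) = e at *
  rcases (h1.trans h2).eq_or_lt with hab | hab
  · -- equal neighbours
    have ht : t = a := le_antisymm (hab ▸ h2) h1
    rw [ht, ← hab]
    simp
  · have hba : 0 < b - a := sub_pos.2 hab
    have e1 : 0 ≤ (t - a) / (b - a) := div_nonneg (sub_nonneg.2 h1) hba.le
    have e2 : (t - a) / (b - a) ≤ 1 := (div_le_one hba).2 (by linarith)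
    refine ⟨e1, e2, ?_⟩
    rcases hR with h5 | h5
    · rw [max_eq_right (by linarith : (0:ℝ) ≤ t - e), max_eq_right (by linarith : (0:ℝ) ≤ a - e),
        max_eq_right (by linarith : (0:ℝ) ≤ b - e)]
      field_simp
      ring
    · rw [max_eq_left (by linarith : t - e ≤ 0), max_eq_left (by linarith : a - e ≤ 0),
        max_eq_left (by linarith : b - e ≤ 0)]
      ring

end Pool.Agent.W571.WT
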